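import Pool.Agent.Lib.MP_67d80e_pr_g3.Ct6.D

/-!
Certificate in dimension 6: checks, part 2.
-/

set_option autoImplicit false

namespace Pool.Agent.Lib.MP_67d80e_pr_g3.Ct6

theorem cs2 : D.cS 2 = true := by decide +kernel

theorem cc2 : D.cC 2 = true := by decide +kernel

theorem cn2 : D.cN 2 = true := by decide +kernel

theorem ce2 : D.cE 2 = true := by decide +kernel

theorem cb2 : D.cB 2 = true := by decide +kernel

theorem cd2_0 : fa 4 18 (fun i => D.cDi 2 i) = true := by decide +kernel

theorem cs3 : D.cS 3 = true := by decide +kernel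

theorem cc3 : D.cC 3 = true := by decide +kernel

theorem cn3 : D.cN 3 = true := by decide +kernel

theorem ce3 : D.cE 3 = true := by decide +kernel

theorem cb3 : D.cB 3 = true := by decide +kernel


end Pool.Agent.Lib.MP_67d80e_pr_g3.Ct6
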