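import Pool.Agent.Lib.MP_67d80e_pr_g3.Ct6.D

/-!
Certificate in dimension 6: checks, part 4.
-/

set_option autoImplicit false

namespace Pool.Agent.Lib.MP_67d80e_pr_g3.Ct6

theorem cn7 : D.cN 7 = true := by decide +kernel

theorem ce7 : D.cE 7 = true := by decide +kernel

theorem cb7 : D.cB 7 = true := by decide +kernel

theorem cd7_0 : fa 9 18 (fun i => D.cDi 7 i) = true := by decide +kernel

theorem cs8 : D.cS 8 = true := by decide +kernel

theorem cc8 : D.cC 8 = true := by decide +kernel

theorem cn8 : D.cN 8 = true := by decide +kernel

theorem ce8 : D.cE 8 = true := by decide +kernel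

theorem cb8 : D.cB 8 = true := by decide +kernel

theorem cd8_0 : fa 10 18 (fun i => D.cDi 8 i) = true := by decide +kernel

theorem cs9 : D.cS 9 = true := by decide +kernel

theorem cc9 : D.cC 9 = true := by decide +kernel

theorem cn9 : D.cN 9 = true := by decide +kernel

theorem ce9 : D.cE 9 = true := by decide +kernel

theorem cb9 : D.cB 9 = true := by decide +kernel

theorem cd9_0 : fa 11 18 (fun i => D.cDi 9 i) = true := by decide +kernel

theorem cs10 : D.cS 10 = true := by decide +kernel

theorem cc10 : D.cC 10 = true := by decide +kernel

theorem cn10 : D.cN 10 = true := by decide +kernel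

theorem ce10 : D.cE 10 = true := by decide +kernel

theorem cb10 : D.cB 10 = true := by decide +kernel

theorem cd10_0 : fa 11 18 (fun i => D.cDi 10 i) = true := by decide +kernel

theorem cs11 : D.cS 11 = true := by decide +kernel

theorem cc11 : D.cC 11 = true := by decide +kernel

theorem cn11 : D.cN 11 = true := by decide +kernel

theorem ce11 : D.cE 11 = true := by decide +kernel

theorem cb11 : D.cB 11 = true := by decide +kernel

theorem cd11_0 : fa 11 18 (fun i => D.cDi 11 i) = true := by decide +kernel

theorem cs12 : D.cS 12 = true := by decide +kernel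

theorem cc12 : D.cC 12 = true := by decide +kernel

theorem cn12 : D.cN 12 = true := by decide +kernel

theorem ce12 : D.cE 12 = true := by decide +kernel

theorem cb12 : D.cB 12 = true := by decide +kernel

theorem cd12_0 : fa 11 18 (fun i => D.cDi 12 i) = true := by decide +kernel

theorem cs13 : D.cS 13 = true := by decide +kernel

theorem cc13 : D.cC 13 = true := by decide +kernel

theorem cn13 : D.cN 13 = true := by decide +kernel

theorem ce13 : D.cE 13 = true := by decide +kernel

theorem cb13 : D.cB 13 = true := by decide +kernel

theorem cd13_0 : fa 11 18 (fun i => D.cDi 13 i) = true := by decide +kernel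

theorem cs14 : D.cS 14 = true := by decide +kernel

theorem cc14 : D.cC 14 = true := by decide +kernel

theorem cn14 : D.cN 14 = true := by decide +kernel

theorem ce14 : D.cE 14 = true := by decide +kernel

theorem cb14 : D.cB 14 = true := by decide +kernel


end Pool.Agent.Lib.MP_67d80e_pr_g3.Ct6
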